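import Pool.Agent.Mnh583.Tools

/-! Packages P1, P2: orders of maximally nonhamiltonian graphs of girth five. -/

set_option autoImplicit false

namespace Pool.H2M5

open Pool.Mnh583

/-- PACKAGE P2. A Hamilton path with adjacent ends gives a Hamilton cycle. -/
theorem ham_of_HP {n : ℕ} (hn : 3 ≤ n) {G : SimpleGraph (Fin n)} {u v : Fin n}
    (h : HP G (fun _ => True) u v) (hadj : G.Adj v u) : G.IsHamiltonian := by
  intro _
  obtain ⟨l, hnd, hc, hu, hv, hm⟩ := h
  have hne : l ≠ [] := by rintro rfl; simp at hu
  obtain ⟨p, hps⟩ : ∃ p : G.Walk u v, p.support = l := by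
    have h1 : l.head hne = u := by
      rw [List.head?_eq_some_head hne] at hu; simpa using hu
    have h2 : l.getLast hne = v := by
      rw [List.getLast?_eq_some_getLast hne] at hv; simpa using hv
    subst h1 h2
    exact ⟨SimpleGraph.Walk.ofSupport l hne hc, SimpleGraph.Walk.support_ofSupport hne hc⟩
  have hpath : p.IsPath := by
    rw [SimpleGraph.Walk.isPath_def, hps]; exact hnd
  have hham : p.IsHamiltonian := hpath.isHamiltonian_of_mem (by
    intro w; rw [hps]; exact (hm w).2 trivial)
  have hlen : p.length = n - 1 := by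
    have := hham.length_eq
    rwa [Fintype.card_fin] at this
  refine ⟨v, SimpleGraph.Walk.cons hadj p, ?_⟩
  rw [SimpleGraph.Walk.isHamiltonianCycle_iff_isCycle_and_length_eq]
  constructor
  · rw [SimpleGraph.Walk.cons_isCycle_iff]
    refine ⟨hpath, fun hmem => ?_⟩
    rw [Sym2.eq_swap] at hmem
    have h1 := hpath.eq_snd_of_mem_edges hmem
    have h2 : p.getVert 1 = p.getVert p.length := by
      rw [SimpleGraph.Walk.getVert_length]; exact h1.symm
    have h3 := hpath.getVert_injOn (by simp; omega) (by simp) h2
    omega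
  · rw [SimpleGraph.Walk.length_cons, hlen, Fintype.card_fin]; omega

theorem HP_of_snd {n : ℕ} {G G' : SimpleGraph (Fin n)} {u v : Fin n}
    (hG : ∀ x y, G'.Adj x y → s(x, y) ≠ s(u, v) → G.Adj x y) (p : G'.Walk u u)
    (hp : p.IsHamiltonianCycle) (hs : p.snd = v) : HP G (fun _ => True) u v := by
  cases p with
  | nil => exact absurd hp.isCycle (by simp)
  | @cons _ w _ h q =>
    simp only [SimpleGraph.Walk.snd_cons] at hs
    subst hs
    have hcyc := (SimpleGraph.Walk.cons_isCycle_iff q h).1 hp.isCycle
    have hall := (SimpleGraph.Walk.isHamiltonianCycle_iff_isCycle_and_support_count_tail_eq_one.1 hp).2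
    simp only [SimpleGraph.Walk.support_cons, List.tail_cons] at hall
    have hE : ∀ e ∈ q.edges, e ∈ G.edgeSet := by
      intro e he
      induction e with
      | h x y =>
        rw [SimpleGraph.mem_edgeSet]
        refine hG x y (q.adj_of_mem_edges he) ?_
        intro h'
        rw [h'] at he
        exact hcyc.2 he
    refine HP.symm ⟨(q.transfer G hE).support, ?_, ?_, ?_, ?_, ?_⟩
    · rw [SimpleGraph.Walk.support_transfer]
      exact hcyc.1.support_nodup
    · exact SimpleGraph.Walk.isChain_adj_support _
    · rw [List.head?_eq_some_head (SimpleGraph.Walk.support_ne_nil _), SimpleGraph.Walk.head_support]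
    · rw [List.getLast?_eq_some_getLast (SimpleGraph.Walk.support_ne_nil _),
        SimpleGraph.Walk.getLast_support]
    · intro x
      rw [SimpleGraph.Walk.support_transfer]
      have := hall x
      simp only [iff_true]
      rw [← List.count_pos_iff]
      omega

/-- PACKAGE P1. -/
theorem HP_of_ham {n : ℕ} (hn : 3 ≤ n) {G : SimpleGraph (Fin n)} {u v : Fin n} (huv : u ≠ v)
    (hadj : ¬ G.Adj u v) (hG : ¬ G.IsHamiltonian)
    (h : (G ⊔ SimpleGraph.edge u v).IsHamiltonian) : HP G (fun _ => True) u v := by
  have : Nontrivial (Fin n) := ⟨u, v, huv⟩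
  obtain ⟨p, hp⟩ := h.exists_isHamiltonianCycle u
  have hGG : ∀ x y, (G ⊔ SimpleGraph.edge u v).Adj x y → s(x, y) ≠ s(u, v) → G.Adj x y := by
    intro x y hxy hne
    rw [SimpleGraph.sup_adj, SimpleGraph.edge_adj] at hxy
    rcases hxy with h | h
    · exact h
    · exfalso
      apply hne
      rcases h.1 with ⟨rfl, rfl⟩ | ⟨rfl, rfl⟩
      · rfl
      · exact Sym2.eq_swap
  have hmem : s(u, v) ∈ p.edges := by
    by_contra hnm
    apply hG
    intro _
    have hE : ∀ e ∈ p.edges, e ∈ G.edgeSet := by
      intro e he
      induction e with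
      | h x y =>
        rw [SimpleGraph.mem_edgeSet]
        refine hGG x y (p.adj_of_mem_edges he) ?_
        intro h'
        rw [h'] at he
        exact hnm he
    refine ⟨u, p.transfer G hE, ?_⟩
    rw [SimpleGraph.Walk.isHamiltonianCycle_iff_isCycle_and_length_eq]
    have h2 := (SimpleGraph.Walk.isHamiltonianCycle_iff_isCycle_and_length_eq.1 hp)
    exact ⟨h2.1.transfer hE, by rw [SimpleGraph.Walk.length_transfer]; exact h2.2⟩
  have hcase : p.snd = v ∨ p.penultimate = v := by
    cases p with
    | nil => simp at hmem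
    | @cons _ w _ h q =>
      have hcyc := (SimpleGraph.Walk.cons_isCycle_iff q h).1 hp.isCycle
      rw [SimpleGraph.Walk.edges_cons, List.mem_cons] at hmem
      rcases hmem with h1 | h1
      · left
        rw [SimpleGraph.Walk.snd_cons]
        have := (Sym2.congr_right.1 h1)
        exact this.symm
      · right
        have h2 := hcyc.1.eq_penultimate_of_mem_edges h1
        rw [SimpleGraph.Walk.penultimate_cons_of_not_nil]
        · exact h2.symm
        · exact SimpleGraph.Walk.not_nil_of_isCycle_cons hp.isCycle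
  rcases hcase with h1 | h1
  · exact HP_of_snd hGG p hp h1
  · refine HP_of_snd hGG p.reverse ?_ ?_
    · rw [SimpleGraph.Walk.isHamiltonianCycle_iff_isCycle_and_length_eq] at hp ⊢
      exact ⟨hp.1.reverse, by rw [SimpleGraph.Walk.length_reverse]; exact hp.2⟩
    · rw [SimpleGraph.Walk.snd_reverse]; exact h1

end Pool.H2M5
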