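import Pool.Agent.H2M5.P
import Pool.Agent.H2M5.Q

/-! A checker for decision trees: no nonhamiltonian graph of girth at least five with minimum degree
at least three and a Hamilton path on certain numbers of vertices. -/

set_option autoImplicit false

namespace Pool.H2M5

open Pool.Mnh583

def bit (i j : ℕ) : ℕ := (1 <<< (16 * i + j)) ||| (1 <<< (16 * j + i))

def tb (m i j : ℕ) : Bool := m.testBit (16 * i + j)

def digits : ℕ → ℕ → List ℕ
  | 0, _ => []
  | k + 1, x => (x % 16) :: digits k (x / 16)

def nd : List ℕ → Bool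
  | [] => true
  | a :: l => !(l.elem a) && nd l

def chain (I : ℕ) : List ℕ → Bool
  | [] => true
  | [_] => true
  | a :: b :: l => tb I a b && chain I (b :: l)

def leaf (n c I O : ℕ) : Bool :=
  let a := c / 8 % 16
  let b := c / 128 % 16
  let d := c / 2048 % 16
  let e := c / 32768 % 16
  match c % 8 with
  | 1 => tb I a b && tb I b d && tb I a d
  | 2 => !(Nat.beq a d) && !(Nat.beq b e) && tb I a b && tb I b d && tb I d e && tb I e a
  | 3 => Nat.blt a n && Nat.ble ((List.range n).filter (fun j => !(Nat.beq j a) && !(tb O a j))).length 2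
  | 4 => let l := digits n (c / 8)
         nd l && l.all (fun x => Nat.blt x n) && chain I l && tb I (l.getLastD 0) (l.headD 0)
  | _ => false

def run (n : ℕ) : List ℕ → List (ℕ × ℕ) → Option (List (ℕ × ℕ))
  | [], st => some st
  | _ :: _, [] => none
  | c :: cs, (I, O) :: st =>
    match c % 8 with
    | 0 => run n cs ((I, O ||| bit (c / 8 % 16) (c / 128 % 16)) ::
        (I ||| bit (c / 8 % 16) (c / 128 % 16), O) :: st)
    | 5 => run n cs ((I ||| bit (c / 8 % 16) (c / 128 % 16), O) ::
        (I, O ||| bit (c / 8 % 16) (c / 128 % 16)) :: st)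
    | _ => if leaf n c I O then run n cs st else none

/-- The hypotheses on the adjacency of positions. -/
structure Hyp (n : ℕ) (A : ℕ → ℕ → Prop) : Prop where
  symm : ∀ a b, A a b → A b a
  lt : ∀ a b, A a b → a < n
  h1 : ∀ a b c, A a b → A b c → A a c → False
  h2 : ∀ a b c d, a ≠ c → b ≠ d → A a b → A b c → A c d → A d a → False
  h3 : ∀ v, v < n → ∃ a b c, A v a ∧ A v b ∧ A v c ∧ a ≠ b ∧ a ≠ c ∧ b ≠ c
  h4 : ∀ l : List ℕ, l.Nodup → (∀ x ∈ l, x < n) → l.length = n → l.IsChain A →
    A (l.getLastD 0) (l.headD 0) → False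

def Compat (A : ℕ → ℕ → Prop) (I O : ℕ) : Prop :=
  (∀ x y, x < 16 → y < 16 → tb I x y = true → A x y) ∧
    (∀ x y, x < 16 → y < 16 → tb O x y = true → ¬ A x y)

theorem tb_or (m i j x y : ℕ) (hi : i < 16) (hj : j < 16) (hx : x < 16) (hy : y < 16)
    (h : tb (m ||| bit i j) x y = true) : tb m x y = true ∨ (x = i ∧ y = j) ∨ (x = j ∧ y = i) := by
  unfold tb bit at h
  rw [Nat.testBit_or, Nat.testBit_or, Bool.or_eq_true, Bool.or_eq_true] at h
  rcases h with h | h | h
  · exact Or.inl h
  · right; left
    rw [Nat.testBit_shiftLeft] at h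
    simp only [Bool.and_eq_true, decide_eq_true_eq, Nat.testBit_one_eq_true_iff_self_eq_zero] at h
    omega
  · right; right
    rw [Nat.testBit_shiftLeft] at h
    simp only [Bool.and_eq_true, decide_eq_true_eq, Nat.testBit_one_eq_true_iff_self_eq_zero] at h
    omega

theorem nd_nodup : ∀ l : List ℕ, nd l = true → l.Nodup
  | [], _ => List.nodup_nil
  | a :: l, h => by
    simp only [nd, Bool.and_eq_true, Bool.not_eq_true'] at h
    refine List.nodup_cons.2 ⟨?_, nd_nodup l h.2⟩
    intro hm
    have := List.elem_iff.2 hm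
    rw [h.1] at this
    exact absurd this (by simp)

theorem digits_length : ∀ k x, (digits k x).length = k
  | 0, _ => rfl
  | k + 1, x => by simp [digits, digits_length k]

theorem digits_lt : ∀ k x, ∀ y ∈ digits k x, y < 16
  | 0, _ => by simp [digits]
  | k + 1, x => by
    intro y hy
    simp only [digits, List.mem_cons] at hy
    rcases hy with rfl | hy
    · exact Nat.mod_lt _ (by norm_num)
    · exact digits_lt k _ y hy

theorem chain_sound {A : ℕ → ℕ → Prop} {I : ℕ}
    (hI : ∀ x y, x < 16 → y < 16 → tb I x y = true → A x y) :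
    ∀ l : List ℕ, (∀ y ∈ l, y < 16) → chain I l = true → l.IsChain A
  | [], _, _ => List.isChain_nil
  | [a], _, _ => List.isChain_singleton a
  | a :: b :: l, hl, h => by
    simp only [chain, Bool.and_eq_true] at h
    rw [List.isChain_cons_cons]
    exact ⟨hI a b (hl a (by simp)) (hl b (by simp)) h.1,
      chain_sound hI (b :: l) (fun y hy => hl y (List.mem_cons_of_mem _ hy)) h.2⟩

theorem leaf_sound {n : ℕ} {A : ℕ → ℕ → Prop} (hA : Hyp n A) (hn : n ≤ 16) {c I O : ℕ}
    (h : leaf n c I O = true) (hc : Compat A I O) : False := by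
  obtain ⟨hI, hO⟩ := hc
  have m16 : ∀ x : ℕ, x % 16 < 16 := fun x => Nat.mod_lt _ (by norm_num)
  unfold leaf at h
  simp only at h
  generalize ha : c / 8 % 16 = a at h
  generalize hb : c / 128 % 16 = b at h
  generalize hd : c / 2048 % 16 = d at h
  generalize he : c / 32768 % 16 = e at h
  have ha' : a < 16 := ha ▸ m16 _
  have hb' : b < 16 := hb ▸ m16 _
  have hd' : d < 16 := hd ▸ m16 _
  have he' : e < 16 := he ▸ m16 _
  split at h
  · simp only [Bool.and_eq_true] at h
    exact hA.h1 a b d (hI a b ha' hb' h.1.1) (hI b d hb' hd' h.1.2) (hI a d ha' hd' h.2)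
  · simp only [Bool.and_eq_true, Bool.not_eq_true'] at h
    obtain ⟨⟨⟨⟨⟨h1, h2⟩, h3⟩, h4⟩, h5⟩, h6⟩ := h
    refine hA.h2 a b d e ?_ ?_ (hI a b ha' hb' h3) (hI b d hb' hd' h4) (hI d e hd' he' h5)
      (hI e a he' ha' h6)
    · rintro rfl; simp at h1
    · rintro rfl; simp at h2
  · simp only [Bool.and_eq_true] at h
    obtain ⟨h1, h2⟩ := h
    have han : a < n := by simpa [Nat.blt_eq] using h1
    have h2 := Nat.le_of_ble_eq_true h2
    obtain ⟨x, y, w, hx, hy, hw, hxy, hxw, hyw⟩ := hA.h3 a han
    have hmem : ∀ u, A a u → u ∈ (List.range n).filter (fun j => !(Nat.beq j a) && !(tb O a j)) := by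
      intro u hu
      have hun := hA.lt u a (hA.symm a u hu)
      rw [List.mem_filter, List.mem_range]
      refine ⟨hun, ?_⟩
      simp only [Bool.and_eq_true, Bool.not_eq_true']
      constructor
      · by_contra hne
        have : u = a := by
          rw [Bool.not_eq_false] at hne
          exact Nat.eq_of_beq_eq_true hne
        subst this
        exact hA.h1 u u u hu hu hu
      · by_contra hne
        rw [Bool.not_eq_false] at hne
        exact hO a u ha' (by omega) hne hu
    have hsub : ({x, y, w} : Finset ℕ) ⊆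
        ((List.range n).filter (fun j => !(Nat.beq j a) && !(tb O a j))).toFinset := by
      intro u hu
      rw [List.mem_toFinset]
      simp only [Finset.mem_insert, Finset.mem_singleton] at hu
      rcases hu with rfl | rfl | rfl
      · exact hmem _ hx
      · exact hmem _ hy
      · exact hmem _ hw
    have hc3 : ({x, y, w} : Finset ℕ).card = 3 := Finset.card_eq_three.2 ⟨x, y, w, hxy, hxw, hyw, rfl⟩
    have := Finset.card_le_card hsub
    rw [hc3] at this
    have h5 := List.toFinset_card_le
      ((List.range n).filter (fun j => !(Nat.beq j a) && !(tb O a j)))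
    omega
  · simp only [Bool.and_eq_true] at h
    obtain ⟨⟨⟨h1, h2⟩, h3⟩, h4⟩ := h
    have hnd := nd_nodup _ h1
    have hlen := digits_length n (c / 8)
    have h16 := digits_lt n (c / 8)
    generalize digits n (c / 8) = l at h2 h3 h4 hnd hlen h16
    refine hA.h4 l hnd ?_ hlen (chain_sound hI l h16 h3) ?_
    · intro x hx
      have := List.all_eq_true.1 h2 x hx
      simpa [Nat.blt_eq] using this
    · by_cases hl : l = []
      · subst hl
        exact hI 0 0 (by norm_num) (by norm_num) h4
      · refine hI _ _ ?_ ?_ h4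
        · rw [List.getLastD_eq_getLast?, List.getLast?_eq_some_getLast hl]
          exact h16 _ (List.getLast_mem hl)
        · rw [List.headD_eq_head?_getD, List.head?_eq_some_head hl]
          exact h16 _ (List.head_mem hl)
  · exact absurd h (by simp)

theorem Compat.split {A : ℕ → ℕ → Prop} {I O i j : ℕ} (hs : ∀ a b, A a b → A b a)
    (h : Compat A I O) (hi : i < 16) (hj : j < 16) :
    Compat A (I ||| bit i j) O ∨ Compat A I (O ||| bit i j) := by
  by_cases hA : A i j
  · left
    refine ⟨fun x y hx hy hxy => ?_, h.2⟩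
    rcases tb_or I i j x y hi hj hx hy hxy with h1 | ⟨rfl, rfl⟩ | ⟨rfl, rfl⟩
    · exact h.1 x y hx hy h1
    · exact hA
    · exact hs _ _ hA
  · right
    refine ⟨h.1, fun x y hx hy hxy => ?_⟩
    rcases tb_or O i j x y hi hj hx hy hxy with h1 | ⟨rfl, rfl⟩ | ⟨rfl, rfl⟩
    · exact h.2 x y hx hy h1
    · exact hA
    · exact fun h' => hA (hs _ _ h')

theorem run_sound {n : ℕ} {A : ℕ → ℕ → Prop} (hA : Hyp n A) (hn : n ≤ 16) :
    ∀ (cs : List ℕ) (st st' : List (ℕ × ℕ)), run n cs st = some st' →
      (∀ p ∈ st', ¬ Compat A p.1 p.2) → ∀ p ∈ st, ¬ Compat A p.1 p.2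
  | [], st, st', h, h' => by
    simp only [run, Option.some.injEq] at h
    rw [h]; exact h'
  | _ :: _, [], st', h, h' => by simp
  | c :: cs, (I, O) :: st, st', h, h' => by
    have m16 : ∀ x : ℕ, x % 16 < 16 := fun x => Nat.mod_lt _ (by norm_num)
    unfold run at h
    split at h
    · have ih := run_sound hA hn cs _ st' h h'
      intro p hp
      rcases List.mem_cons.1 hp with rfl | hp
      · intro hC
        rcases hC.split hA.symm (m16 (c / 8)) (m16 (c / 128)) with h1 | h1
        · exact ih _ (List.mem_cons_of_mem _ (List.mem_cons_self ..)) h1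
        · exact ih _ (List.mem_cons_self ..) h1
      · exact ih p (List.mem_cons_of_mem _ (List.mem_cons_of_mem _ hp))
    · have ih := run_sound hA hn cs _ st' h h'
      intro p hp
      rcases List.mem_cons.1 hp with rfl | hp
      · intro hC
        rcases hC.split hA.symm (m16 (c / 8)) (m16 (c / 128)) with h1 | h1
        · exact ih _ (List.mem_cons_self ..) h1
        · exact ih _ (List.mem_cons_of_mem _ (List.mem_cons_self ..)) h1
      · exact ih p (List.mem_cons_of_mem _ (List.mem_cons_of_mem _ hp))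
    · split at h
      · rename_i hl
        have ih := run_sound hA hn cs _ st' h h'
        intro p hp
        rcases List.mem_cons.1 hp with rfl | hp
        · exact fun hC => leaf_sound hA hn hl hC
        · exact ih p hp
      · exact absurd h (by simp)

/-- The adjacency of positions of a Hamilton path satisfies `Hyp`. -/
theorem hyp_of_graph {n : ℕ} (hn : 5 ≤ n) {G : SimpleGraph (Fin n)}
    (tri : ∀ u v w, G.Adj u v → G.Adj v w → ¬ G.Adj u w)
    (sq : ∀ a b c d, a ≠ c → b ≠ d → G.Adj a b → G.Adj b c → G.Adj c d → ¬ G.Adj d a)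
    (pairs : ∀ u v, u ≠ v → ¬ G.Adj u v → HP G (fun _ => True) u v)
    (ham : ¬ G.IsHamiltonian) :
    ∃ A : ℕ → ℕ → Prop, Hyp n A ∧ ∀ i, i + 1 < n → A i (i + 1) := by
  obtain ⟨u, v, huv, hadj⟩ := exists_nonadj hn tri
  obtain ⟨l, hnd, hch, -, -, hm⟩ := pairs u v huv hadj
  have hlen : l.length = n := by
    have h2 : l.toFinset = Finset.univ := by
      ext w; simp [hm w]
    have h3 := List.toFinset_card_of_nodup hnd
    rw [h2, Finset.card_univ, Fintype.card_fin] at h3
    exact h3.symm
  let A : ℕ → ℕ → Prop := fun x y => ∃ (hx : x < l.length) (hy : y < l.length), G.Adj l[x] l[y]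
  have inj : ∀ x y (hx : x < l.length) (hy : y < l.length), l[x] = l[y] → x = y :=
    fun x y hx hy h => (List.Nodup.getElem_inj_iff hnd).1 h
  refine ⟨A, ⟨?_, ?_, ?_, ?_, ?_, ?_⟩, ?_⟩
  · rintro a b ⟨ha, hb, h⟩; exact ⟨hb, ha, h.symm⟩
  · rintro a b ⟨ha, hb, h⟩; omega
  · rintro a b c ⟨ha, hb, h⟩ ⟨_, hc, h2⟩ ⟨_, _, h3⟩
    exact tri _ _ _ h h2 h3
  · rintro a b c d hac hbd ⟨ha, hb, h⟩ ⟨_, hc, h2⟩ ⟨_, hd, h3⟩ ⟨_, _, h4⟩
    exact sq _ _ _ _ (fun e => hac (inj _ _ _ _ e)) (fun e => hbd (inj _ _ _ _ e)) h h2 h3 h4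
  · intro x hx
    obtain ⟨a, b, c, h1, h2, h3, hab, hac, hbc⟩ := deg_three hn tri pairs (l[x]'(by omega))
    obtain ⟨i, hi, rfl⟩ := List.mem_iff_getElem.1 ((hm a).2 trivial)
    obtain ⟨j, hj, rfl⟩ := List.mem_iff_getElem.1 ((hm b).2 trivial)
    obtain ⟨k, hk, rfl⟩ := List.mem_iff_getElem.1 ((hm c).2 trivial)
    refine ⟨i, j, k, ⟨by omega, hi, h1⟩, ⟨by omega, hj, h2⟩, ⟨by omega, hk, h3⟩, ?_, ?_, ?_⟩
    · rintro rfl; exact hab rfl
    · rintro rfl; exact hac rfl
    · rintro rfl; exact hbc rfl
  · intro p hpn hplt hplen hpc hpl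
    have hp0 : p ≠ [] := by rintro rfl; simp at hplen; omega
    let f : ℕ → Fin n := fun x => if hx : x < l.length then l[x] else u
    have hf : ∀ x (hx : x < l.length), f x = l[x] := fun x hx => by simp [f, hx]
    have hP : HP G (fun _ => True) (f (p.head hp0)) (f (p.getLast hp0)) := by
      refine ⟨p.map f, ?_, ?_, ?_, ?_, ?_⟩
      · refine (List.nodup_map_iff_inj_on hpn).2 ?_
        intro x hx y hy hxy
        have hx' := hplt x hx
        have hy' := hplt y hy
        rw [hf x (by omega), hf y (by omega)] at hxy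
        exact inj _ _ _ _ hxy
      · rw [List.isChain_map]
        refine hpc.imp ?_
        rintro a b ⟨ha, hb, h⟩
        rw [hf a ha, hf b hb]; exact h
      · rw [List.head?_map, List.head?_eq_some_head hp0]; rfl
      · rw [List.getLast?_map, List.getLast?_eq_some_getLast hp0]; rfl
      · intro w
        simp only [iff_true]
        obtain ⟨i, hi, rfl⟩ := List.mem_iff_getElem.1 ((hm w).2 trivial)
        rw [List.mem_map]
        refine ⟨i, ?_, hf i hi⟩
        have hs : p.toFinset = Finset.range n := by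
          apply Finset.eq_of_subset_of_card_le
          · intro y hy
            rw [Finset.mem_range]; exact hplt y (List.mem_toFinset.1 hy)
          · rw [List.toFinset_card_of_nodup hpn, hplen, Finset.card_range]
        rw [← List.mem_toFinset, hs, Finset.mem_range]; omega
    apply ham
    refine ham_of_HP (by omega) hP ?_
    rw [List.getLastD_eq_getLast?, List.getLast?_eq_some_getLast hp0, List.headD_eq_head?_getD,
      List.head?_eq_some_head hp0, Option.getD_some, Option.getD_some] at hpl
    obtain ⟨ha, hb, h⟩ := hpl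
    rw [hf _ ha, hf _ hb]; exact h
  · intro i hi
    exact ⟨by omega, by omega, List.isChain_iff_getElem.1 hch i (by omega)⟩

end Pool.H2M5
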