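import Pool.Agent.H2M5.Cert
import Pool.Agent.H2M5.Cert14

/-! No maximally nonhamiltonian graph of girth five on 5, ..., 9, 11, 12 or 14 vertices. -/

set_option autoImplicit false

namespace Pool.H2M5

open Pool.Mnh583

theorem compat_init {n : ℕ} {A : ℕ → ℕ → Prop} (hA : Hyp n A) (hp : ∀ i, i + 1 < n → A i (i + 1))
    {I : ℕ} (hI : ∀ x : Fin 16, ∀ y : Fin 16, tb I x y = true →
      (x.1 + 1 = y.1 ∧ y.1 < n) ∨ (y.1 + 1 = x.1 ∧ x.1 < n)) : Compat A I 0 := by
  constructor
  · intro x y hx hy h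
    rcases hI ⟨x, hx⟩ ⟨y, hy⟩ h with ⟨h1, h2⟩ | ⟨h1, h2⟩
    · simp only at h1 h2
      subst h1; exact hp _ h2
    · simp only at h1 h2
      subst h1; exact hA.symm _ _ (hp _ h2)
  · intro x y hx hy h
    simp [tb] at h

theorem order {n : ℕ} {G : SimpleGraph (Fin n)} (ham : ¬ G.IsHamiltonian)
    (hmax : ∀ u v, u ≠ v → ¬ G.Adj u v → (G ⊔ SimpleGraph.edge u v).IsHamiltonian)
    (hg : G.girth = 5) : n = 10 ∨ n = 13 ∨ 15 ≤ n := by
  obtain ⟨hn, tri, sq⟩ := girth_five hg
  have pairs : ∀ u v, u ≠ v → ¬ G.Adj u v → HP G (fun _ => True) u v :=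
    fun u v huv h => HP_of_ham (by omega) huv h ham (hmax u v huv h)
  obtain ⟨A, hA, hp⟩ := hyp_of_graph hn tri sq pairs ham
  by_contra hcon
  push Not at hcon
  obtain ⟨h10, h13, h15⟩ := hcon
  have h : n = 5 ∨ n = 6 ∨ n = 7 ∨ n = 8 ∨ n = 9 ∨ n = 11 ∨ n = 12 ∨ n = 14 := by omega
  rcases h with rfl | rfl | rfl | rfl | rfl | rfl | rfl | rfl
  · exact no5 hA _ (List.mem_singleton.2 rfl) (compat_init hA hp (by decide +kernel))
  · exact no6 hA _ (List.mem_singleton.2 rfl) (compat_init hA hp (by decide +kernel))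
  · exact no7 hA _ (List.mem_singleton.2 rfl) (compat_init hA hp (by decide +kernel))
  · exact no8 hA _ (List.mem_singleton.2 rfl) (compat_init hA hp (by decide +kernel))
  · exact no9 hA _ (List.mem_singleton.2 rfl) (compat_init hA hp (by decide +kernel))
  · exact no11 hA _ (List.mem_singleton.2 rfl) (compat_init hA hp (by decide +kernel))
  · exact no12 hA _ (List.mem_singleton.2 rfl) (compat_init hA hp (by decide +kernel))
  · exact no14 hA _ (List.mem_singleton.2 rfl) (compat_init hA hp (by decide +kernel))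

end Pool.H2M5
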