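import Pool.Agent.Mnh583.Tools

/-! Packages P3, P6, P7: orders of maximally nonhamiltonian graphs of girth five. -/

set_option autoImplicit false

namespace Pool.H2M5

open Pool.Mnh583

theorem HP.inner {n : ℕ} {G : SimpleGraph (Fin n)} {a b v : Fin n}
    (h : HP G (fun _ => True) a b) (ha : v ≠ a) (hb : v ≠ b) :
    ∃ (l : List (Fin n)) (i : ℕ) (hi : i + 2 < l.length), l.Nodup ∧ (∀ w, w ∈ l) ∧
      l[i + 1] = v ∧ l[0] = a ∧ l[l.length - 1] = b ∧ G.Adj l[i] v ∧ G.Adj v l[i + 2] := by
  obtain ⟨l, hn, hc, hu, hv, hm⟩ := h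
  have hne : l ≠ [] := by rintro rfl; simp at hu
  have hlen : 0 < l.length := List.length_pos_iff.2 hne
  have h0 : l[0] = a := by
    rw [List.head?_eq_getElem?, List.getElem?_eq_getElem hlen] at hu
    simpa using hu
  have h1 : l[l.length - 1] = b := by
    rw [List.getLast?_eq_getElem?, List.getElem?_eq_getElem (by omega)] at hv
    simpa using hv
  obtain ⟨j, hj, hjv⟩ := List.mem_iff_getElem.1 ((hm v).2 trivial)
  have hj0 : j ≠ 0 := by rintro rfl; exact ha (hjv.symm.trans h0)
  have hj1 : j ≠ l.length - 1 := by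
    intro h; subst h; exact hb (hjv.symm.trans h1)
  obtain ⟨i, rfl⟩ : ∃ i, j = i + 1 := ⟨j - 1, by omega⟩
  have hi : i + 2 < l.length := by omega
  have hch := List.isChain_iff_getElem.1 hc
  refine ⟨l, i, hi, hn, fun w => (hm w).2 trivial, hjv, h0, h1, ?_, ?_⟩
  · have := hch i (by omega)
    rwa [hjv] at this
  · have := hch (i + 1) (by omega)
    rw [hjv] at this
    exact this

/-- PACKAGE P7. -/
theorem exists_nonadj {n : ℕ} (hn : 5 ≤ n) {G : SimpleGraph (Fin n)}
    (tri : ∀ u v w, G.Adj u v → G.Adj v w → ¬ G.Adj u w) : ∃ u v, u ≠ v ∧ ¬ G.Adj u v := by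
  by_contra hcon
  push Not at hcon
  let a : Fin n := ⟨0, by omega⟩
  let b : Fin n := ⟨1, by omega⟩
  let c : Fin n := ⟨2, by omega⟩
  exact tri a b c (hcon a b (by simp [a, b, Fin.ext_iff])) (hcon b c (by simp [b, c, Fin.ext_iff]))
    (hcon a c (by simp [a, c, Fin.ext_iff]))

/-- PACKAGE P3. -/
theorem deg_three {n : ℕ} (hn : 5 ≤ n) {G : SimpleGraph (Fin n)}
    (tri : ∀ u v w, G.Adj u v → G.Adj v w → ¬ G.Adj u w)
    (pairs : ∀ u v, u ≠ v → ¬ G.Adj u v → HP G (fun _ => True) u v) (v : Fin n) :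
    ∃ a b c, G.Adj v a ∧ G.Adj v b ∧ G.Adj v c ∧ a ≠ b ∧ a ≠ c ∧ b ≠ c := by
  -- a nonadjacent pair different from `v`
  obtain ⟨u, w, huw, hadj, huv, hwv⟩ : ∃ u w, u ≠ w ∧ ¬ G.Adj u w ∧ v ≠ u ∧ v ≠ w := by
    by_contra hcon
    push Not at hcon
    obtain ⟨s, hs⟩ : ∃ s : Finset (Fin n), s = Finset.univ.erase v := ⟨_, rfl⟩
    have hcard : 2 < s.card := by
      rw [hs, Finset.card_erase_of_mem (Finset.mem_univ v), Finset.card_univ, Fintype.card_fin]
      omega
    obtain ⟨a, ha, b, hb, c, hc, hab, hac, hbc⟩ := Finset.two_lt_card.1 hcard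
    rw [hs] at ha hb hc
    have ha' := (Finset.mem_erase.1 ha).1.symm
    have hb' := (Finset.mem_erase.1 hb).1.symm
    have hc' := (Finset.mem_erase.1 hc).1.symm
    have key : ∀ x y, x ≠ y → v ≠ x → v ≠ y → G.Adj x y := by
      intro x y hxy hx hy
      by_contra h
      exact hy (hcon x y hxy h hx)
    exact tri a b c (key a b hab ha' hb') (key b c hbc hb' hc') (key a c hac ha' hc')
  obtain ⟨l, i, hi, hnd, -, hiv, -, -, hx, hy⟩ := HP.inner (pairs u w huw hadj) huv hwv
  generalize hxe : l[i] = x at hx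
  generalize hye : l[i + 2] = y at hy
  have hxy : x ≠ y := by
    rw [← hxe, ← hye]
    intro h
    have := (List.Nodup.getElem_inj_iff hnd).1 h
    omega
  have hnxy : ¬ G.Adj x y := tri x v y hx hy
  obtain ⟨m, j, hj, hmd, hall, hjv, h0, h1, hp, hq⟩ :=
    HP.inner (pairs x y hxy hnxy) hx.ne' hy.ne
  by_contra hcon
  push Not at hcon
  have two : ∀ z, G.Adj v z → z = x ∨ z = y := by
    intro z hz
    by_contra hz'
    push Not at hz'
    exact hz'.2 (hcon x y z hx.symm hy hz hxy (Ne.symm hz'.1)).symm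
  have hlen : m.length = n := by
    have h2 : m.toFinset = Finset.univ := by
      ext w; simp [hall w]
    have h3 := List.toFinset_card_of_nodup hmd
    rw [h2, Finset.card_univ, Fintype.card_fin] at h3
    exact h3.symm
  -- the successor of `v` is not `x`
  rcases two _ hq with h | h
  · rw [← h0] at h
    have := (List.Nodup.getElem_inj_iff hmd).1 h
    omega
  · rw [← h1] at h
    have e1 := (List.Nodup.getElem_inj_iff hmd).1 h
    rcases two _ hp.symm with h' | h'
    · rw [← h0] at h'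
      have e2 := (List.Nodup.getElem_inj_iff hmd).1 h'
      omega
    · rw [← h1] at h'
      have e2 := (List.Nodup.getElem_inj_iff hmd).1 h'
      omega

/-- PACKAGE P6. -/
theorem girth_five {n : ℕ} {G : SimpleGraph (Fin n)} (h : G.girth = 5) :
    5 ≤ n ∧ (∀ u v w, G.Adj u v → G.Adj v w → ¬ G.Adj u w) ∧
    (∀ a b c d, a ≠ c → b ≠ d → G.Adj a b → G.Adj b c → G.Adj c d → ¬ G.Adj d a) := by
  have hac : ¬ G.IsAcyclic := by
    intro hA
    rw [SimpleGraph.girth_eq_zero.2 hA] at h
    omega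
  have hle : ∀ {a : Fin n} {w : G.Walk a a}, w.IsCycle → 5 ≤ w.length := by
    intro a w hw
    have := hw.girth_le_length
    omega
  refine ⟨?_, ?_, ?_⟩
  · obtain ⟨a, w, hw, hlen⟩ := SimpleGraph.exists_girth_eq_length.2 hac
    have h1 := hw.support_nodup
    have h2 : w.support.tail.length = 5 := by
      rw [List.length_tail, SimpleGraph.Walk.length_support]; omega
    have h3 := List.toFinset_card_of_nodup h1
    have h4 := Finset.card_le_univ w.support.tail.toFinset
    rw [h3, h2, Fintype.card_fin] at h4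
    exact h4
  · intro u v w huv hvw huw
    have hc : (SimpleGraph.Walk.cons huv (SimpleGraph.Walk.cons hvw
        (SimpleGraph.Walk.cons huw.symm SimpleGraph.Walk.nil))).IsCycle := by
      rw [SimpleGraph.Walk.cons_isCycle_iff]
      have := huv.ne
      have := hvw.ne
      have := huw.ne
      simp_all [SimpleGraph.Walk.cons_isPath_iff, Ne.symm]
    have := hle hc
    simp at this
  · intro a b c d hacn hbd hab hbc hcd hda
    have hc : (SimpleGraph.Walk.cons hab (SimpleGraph.Walk.cons hbc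
        (SimpleGraph.Walk.cons hcd (SimpleGraph.Walk.cons hda SimpleGraph.Walk.nil)))).IsCycle := by
      rw [SimpleGraph.Walk.cons_isCycle_iff]
      have := hab.ne
      have := hbc.ne
      have := hcd.ne
      have := hda.ne
      simp_all [SimpleGraph.Walk.cons_isPath_iff, Ne.symm]
    have := hle hc
    simp at this

end Pool.H2M5
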